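import Pool.Agent.TH722.AF.Defs
import Pool.Agent.TH111.AF_COMPACT

/-!
Job AF-DUAL: duals of module maps.
-/

set_option autoImplicit false

namespace Pool.Agent.TH209.AF

open MeasureTheory Set Filter Pool.Agent.TH722.FI Pool.Agent.TH722.AF
open scoped Topology ENNReal

universe u

section basics

variable {A : Type u} [AddCommGroup A] [TopologicalSpace A]

lemma dual_ext {χ ψ : Dual A} (h : ∀ a, χ.eval a = ψ.eval a) : χ = ψ :=
  PontryaginDual.ext (A := Multiplicative A) fun a => h (Multiplicative.toAdd a)

lemma eval_add (χ : Dual A) (a b : A) : χ.eval (a + b) = χ.eval a * χ.eval b :=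
  map_mul (show PontryaginDual (Multiplicative A) from χ) (Multiplicative.ofAdd a)
    (Multiplicative.ofAdd b)

lemma eval_zero (χ : Dual A) : χ.eval 0 = 1 :=
  map_one (show PontryaginDual (Multiplicative A) from χ)

lemma one_eval (a : A) : (1 : Dual A).eval a = 1 := rfl

lemma dualHom_eval [DiscreteTopology A] {B : Type u} [AddCommGroup B] [TopologicalSpace B]
    (f : A →+ B) (χ : Dual B) (a : A) : (dualHom f χ).eval a = χ.eval (f a) := rfl

/-- the character as a homomorphism -/
noncomputable def toHom (χ : Dual A) : A →+ Additive Circle where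
  toFun a := Additive.ofMul (χ.eval a)
  map_zero' := by rw [eval_zero]; rfl
  map_add' a b := by rw [eval_add]; rfl

/-- a homomorphism as a character -/
noncomputable def ofHom [DiscreteTopology A] (f : A →+ Additive Circle) : Dual A :=
  show PontryaginDual (Multiplicative A) from
  ({ toFun := fun a => Additive.toMul (f (Multiplicative.toAdd a))
     map_one' := by simp
     map_mul' := fun a b => by simp
     continuous_toFun := continuous_of_discreteTopology } : Multiplicative A →ₜ* Circle)

lemma ofHom_eval [DiscreteTopology A] (f : A →+ Additive Circle) (a : A) :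
    (ofHom f).eval a = Additive.toMul (f a) := rfl

lemma toHom_apply (χ : Dual A) (a : A) : toHom χ a = Additive.ofMul (χ.eval a) := rfl

end basics

/-- the circle is divisible -/
@[reducible] noncomputable def divCircle : DivisibleBy (Additive Circle) ℤ where
  div z n := if n = 0 then 0 else
    Additive.ofMul (Circle.exp (Complex.arg ((Additive.toMul z : Circle) : ℂ) / n))
  div_zero z := by simp
  div_cancel {n} z hn := by
    rw [if_neg hn]
    have h1 : (n : ℤ) • Additive.ofMul
        (Circle.exp (Complex.arg ((Additive.toMul z : Circle) : ℂ) / n)) =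
        Additive.ofMul (Circle.exp (Complex.arg ((Additive.toMul z : Circle) : ℂ) / n) ^ n) := rfl
    rw [h1, ← Circle.exp_zsmul]
    have h2 : n • (Complex.arg ((Additive.toMul z : Circle) : ℂ) / (n : ℝ)) =
        Complex.arg ((Additive.toMul z : Circle) : ℂ) := by
      rw [zsmul_eq_mul]
      have : (n : ℝ) ≠ 0 := by exact_mod_cast hn
      field_simp
    rw [h2, Circle.exp_arg]
    rfl

theorem dual_exact {A B C : Type u} [AddCommGroup A] [TopologicalSpace A]
    [DiscreteTopology A] [AddCommGroup B] [TopologicalSpace B] [DiscreteTopology B]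
    [AddCommGroup C] [TopologicalSpace C] [DiscreteTopology C]
    (i : A →+ B) (p : B →+ C) (hi : Function.Injective i) (hp : Function.Surjective p)
    (hex : ∀ b, p b = 0 ↔ ∃ a, i a = b) :
    Function.Injective (dualHom p) ∧ Function.Surjective (dualHom i) ∧
    (∀ x : Dual B, dualHom i x = 1 ↔ ∃ k : Dual C, dualHom p k = x) := by
  refine ⟨?_, ?_, ?_⟩
  · intro x y hxy
    refine dual_ext fun c => ?_
    obtain ⟨b, rfl⟩ := hp c
    rw [← dualHom_eval p x, ← dualHom_eval p y, hxy]
  · intro χ
    obtain ⟨h, hh⟩ := (@Module.Baer.of_divisible (Additive Circle) _ divCircle).extension_property_addMonoidHom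
      i hi (toHom χ)
    refine ⟨ofHom h, dual_ext fun a => ?_⟩
    rw [dualHom_eval, ofHom_eval]
    have := DFunLike.congr_fun hh a
    rw [AddMonoidHom.comp_apply] at this
    rw [this]
    rfl
  · intro x
    constructor
    · intro hx
      have hk : p.ker ≤ (toHom x).ker := by
        intro b hb
        rw [AddMonoidHom.mem_ker] at hb ⊢
        obtain ⟨a, rfl⟩ := (hex b).1 hb
        rw [toHom_apply, ← dualHom_eval i x a, hx, one_eval]
        rfl
      refine ⟨ofHom (p.liftOfSurjective hp ⟨toHom x, hk⟩), dual_ext fun b => ?_⟩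
      rw [dualHom_eval, ofHom_eval]
      have := AddMonoidHom.liftOfRightInverse_comp_apply p (Function.surjInv hp)
        (Function.rightInverse_surjInv hp) ⟨toHom x, hk⟩ b
      rw [AddMonoidHom.liftOfSurjective, this]
      rfl
    · rintro ⟨k, rfl⟩
      refine dual_ext fun a => ?_
      rw [dualHom_eval, dualHom_eval, (hex (i a)).2 ⟨a, rfl⟩, eval_zero, one_eval]

theorem dual_equiv {r : ℕ} {A B : Type u} [AddCommGroup A] [TopologicalSpace A]
    [DiscreteTopology A] [AddCommGroup B] [TopologicalSpace B] [DiscreteTopology B]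
    [Module (MonoidAlgebra ℤ (FreeGroup (Fin r))) A]
    [Module (MonoidAlgebra ℤ (FreeGroup (Fin r))) B]
    (i : A →ₗ[MonoidAlgebra ℤ (FreeGroup (Fin r))] B) (g : FreeGroup (Fin r)) (x : Dual B) :
    dualHom i.toAddMonoidHom (act g x) = act g (dualHom i.toAddMonoidHom x) := by
  refine dual_ext fun a => ?_
  rw [dualHom_eval, act_eval, act_eval, dualHom_eval]
  change _ = x.eval (i (_ • a))
  rw [map_smul]
  rfl

theorem act_pmp {r : ℕ} {A : Type u} [AddCommGroup A] [TopologicalSpace A]
    [DiscreteTopology A] [Module (MonoidAlgebra ℤ (FreeGroup (Fin r))) A] :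
    IsProbabilityMeasure (haar A) ∧ (haar A).IsHaarMeasure ∧
    PmpAct (haar A) (act : FreeGroup (Fin r) → Dual A → Dual A) := by
  have hone : ∀ x : Dual A, act (1 : FreeGroup (Fin r)) x = x := by
    intro x
    refine dual_ext fun a => ?_
    rw [act_eval, inv_one, map_one, one_smul]
  have hmul : ∀ (g h : FreeGroup (Fin r)) (x : Dual A), act (g * h) x = act g (act h x) := by
    intro g h x
    refine dual_ext fun a => ?_
    rw [act_eval, act_eval, act_eval, mul_inv_rev, map_mul, mul_smul]
  refine ⟨⟨?_⟩, ?_, hone, hmul, ?_⟩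
  · have h1 := MeasureTheory.Measure.haarMeasure_self
      (K₀ := (⊤ : TopologicalSpace.PositiveCompacts (Dual A)))
    rw [TopologicalSpace.PositiveCompacts.coe_top] at h1
    exact h1
  · exact MeasureTheory.Measure.isHaarMeasure_haarMeasure _
  · intro g
    refine Pool.Agent.TH111.AFC.haar_map (dualHom (Module.toAddMonoidEnd
      (MonoidAlgebra ℤ (FreeGroup (Fin r))) A (MonoidAlgebra.of ℤ (FreeGroup (Fin r)) g⁻¹))) ?_
    intro x
    refine ⟨act g⁻¹ x, ?_⟩
    change act g (act g⁻¹ x) = x
    rw [← hmul, mul_inv_cancel, hone]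

end Pool.Agent.TH209.AF
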