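import Pool.Agent.TH722.AF.Defs
import Pool.Agent.TH480.FI.FI_LAB

/-!
Job AF-LIM: conditional entropy along increasing labels converges to the integral of the
fibre entropies.
-/

set_option autoImplicit false
set_option linter.unusedSectionVars false

namespace Pool.Agent.TH209.AF

open MeasureTheory Set Filter Pool.Agent.TH722.FI Pool.Agent.TH722.AF Pool.Agent.TH480.FI
open scoped Topology ENNReal

section lim

variable {Ω₁ Ω₂ κ Q : Type*} [MeasurableSpace Ω₁] [MeasurableSpace Ω₂] {P₁ : Measure Ω₁}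
  {P₂ : Measure Ω₂} [IsProbabilityMeasure P₁] [IsProbabilityMeasure P₂]

/-- average of `f` over the cell `c` of `q` -/
noncomputable def cellAvg (P : Measure Ω₁) (q : Ω₁ → Q) (f : Ω₁ → ℝ) (c : Q) : ℝ :=
  (∫ x in {x | q x = c}, f x ∂P) / P.real {x | q x = c}

lemma comap_le' {q : Ω₁ → Q} (hm : ∀ c, MeasurableSet {x | q x = c}) (hc : (range q).Countable) :
    MeasurableSpace.comap q ⊤ ≤ (inferInstance : MeasurableSpace Ω₁) := by
  rintro s ⟨S, _, rfl⟩
  exact meas_set hm hc S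

lemma condExp_cell {q : Ω₁ → Q} (hm : ∀ c, MeasurableSet {x | q x = c})
    (hc : (range q).Countable) {f : Ω₁ → ℝ} (hf : Integrable f P₁) :
    P₁[f | MeasurableSpace.comap q ⊤] =ᵐ[P₁] fun b => cellAvg P₁ q f (q b) := by
  have hle := comap_le' hm hc
  filter_upwards [ae_mass_pos (μ := P₁) hm hc] with b hb
  have hg : StronglyMeasurable[MeasurableSpace.comap q ⊤] (P₁[f | MeasurableSpace.comap q ⊤]) :=
    stronglyMeasurable_condExp
  set g := P₁[f | MeasurableSpace.comap q ⊤] with hgdef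
  have hconst : ∀ x, q x = q b → g x = g b := by
    intro x hx
    have h1 : MeasurableSet[MeasurableSpace.comap q ⊤] (g ⁻¹' {g b}) :=
      hg.measurable (measurableSet_singleton _)
    obtain ⟨S, _, hS⟩ := h1
    have h2 : b ∈ q ⁻¹' S := by rw [hS]; rfl
    have h3 : x ∈ q ⁻¹' S := by
      change q x ∈ S
      rw [hx]; exact h2
    rw [hS] at h3
    exact h3
  have hs : MeasurableSet[MeasurableSpace.comap q ⊤] {x | q x = q b} := ⟨{q b}, trivial, rfl⟩
  have h4 : ∫ x in {x | q x = q b}, g x ∂P₁ = ∫ x in {x | q x = q b}, f x ∂P₁ :=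
    setIntegral_condExp hle hf hs
  have h5 : ∫ x in {x | q x = q b}, g x ∂P₁ = g b * P₁.real {x | q x = q b} := by
    rw [setIntegral_congr_fun (g := fun _ => g b) (hm _) (fun x hx => hconst x hx),
      setIntegral_const, smul_eq_mul, mul_comm]
  unfold cellAvg
  rw [← h4, h5]
  have : P₁.real {x | q x = q b} ≠ 0 := hb.ne'
  field_simp

variable (P₂) in
/-- fibre probabilities -/
noncomputable def pv (Ψ : Ω₁ × Ω₂ → κ) (v : κ) (b : Ω₁) : ℝ := P₂.real {c | Ψ (b, c) = v}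

lemma pv_meas {Ψ : Ω₁ × Ω₂ → κ} (hΨ : ∀ v, MeasurableSet {p | Ψ p = v}) (v : κ) :
    Measurable (pv P₂ Ψ v) := by
  have := (measurable_measure_prodMk_left (ν := P₂) (hΨ v))
  exact this.ennreal_toReal

lemma pv_nonneg (Ψ : Ω₁ × Ω₂ → κ) (v : κ) (b : Ω₁) : 0 ≤ pv P₂ Ψ v b := measureReal_nonneg

lemma pv_le_one (Ψ : Ω₁ × Ω₂ → κ) (v : κ) (b : Ω₁) : pv P₂ Ψ v b ≤ 1 := measureReal_le_one

lemma pv_int {Ψ : Ω₁ × Ω₂ → κ} (hΨ : ∀ v, MeasurableSet {p | Ψ p = v}) (v : κ) :
    Integrable (pv P₂ Ψ v) P₁ := by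
  refine Integrable.of_bound (pv_meas hΨ v).aestronglyMeasurable 1
    (Eventually.of_forall fun b => ?_)
  rw [Real.norm_eq_abs, abs_of_nonneg (pv_nonneg Ψ v b)]
  exact pv_le_one Ψ v b

lemma int_pv {Ψ : Ω₁ × Ω₂ → κ} (hΨ : ∀ v, MeasurableSet {p | Ψ p = v}) (v : κ)
    {q : Ω₁ → Q} (hm : ∀ c, MeasurableSet {x | q x = c}) (c : Q) :
    ∫ x in {x | q x = c}, pv P₂ Ψ v x ∂P₁ =
      (P₁.prod P₂).real {p | (Ψ p, q p.1) = (v, c)} := by
  have hS : MeasurableSet {p : Ω₁ × Ω₂ | (Ψ p, q p.1) = (v, c)} := by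
    have : {p : Ω₁ × Ω₂ | (Ψ p, q p.1) = (v, c)} =
        {p | Ψ p = v} ∩ Prod.fst ⁻¹' {x | q x = c} := by
      ext p
      simp [Prod.ext_iff]
    rw [this]
    exact (hΨ v).inter (measurable_fst (hm c))
  have h1 : ∫ x in {x | q x = c}, pv P₂ Ψ v x ∂P₁ =
      (∫⁻ x in {x | q x = c}, P₂ {c' | Ψ (x, c') = v} ∂P₁).toReal := by
    unfold pv Measure.real
    refine integral_toReal (measurable_measure_prodMk_left (hΨ v)).aemeasurable ?_
    exact Eventually.of_forall fun x => measure_lt_top _ _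
  rw [h1, Measure.real, Measure.prod_apply hS, ← lintegral_indicator (hm c)]
  congr 1
  refine lintegral_congr fun x => ?_
  by_cases hx : q x = c
  · rw [indicator_of_mem (show x ∈ {x | q x = c} from hx)]
    congr 1
    ext y
    simp [hx]
  · rw [indicator_of_notMem (show x ∉ {x | q x = c} from hx)]
    have : Prod.mk x ⁻¹' {p : Ω₁ × Ω₂ | (Ψ p, q p.1) = (v, c)} = ∅ := by
      ext y
      simp [hx]
    rw [this, measure_empty]

lemma ent_diff [Fintype κ] {Ψ : Ω₁ × Ω₂ → κ} (hΨ : ∀ v, MeasurableSet {p | Ψ p = v})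
    {q : Ω₁ → Q} (hq : IsLab P₁ q) :
    ent (P₁.prod P₂) (fun p => (Ψ p, q p.1)) - ent P₁ q =
      ∫ b, ∑ v, Real.negMulLog (cellAvg P₁ q (pv P₂ Ψ v) (q b)) ∂P₁ := by
  have h2 := lab_comp (ν := P₁.prod P₂) (T := Prod.fst) measurePreserving_fst hq
  have hΨl : IsLab (P₁.prod P₂) Ψ := lab_finite hΨ (Set.toFinite _)
  have h3 := (lab_pair hΨl h2.1).1
  -- Shannon sums
  obtain ⟨s1, e1⟩ := lab_shannon (μ := P₁.prod P₂) h3.meas h3.cnt
  replace s1 := s1.1 h3
  obtain ⟨s2, e2⟩ := lab_shannon (μ := P₁) hq.meas hq.cnt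
  replace s2 := s2.1 hq
  have h4 := integral_eq (μ := P₁) hq.meas hq.cnt univ MeasurableSet.univ
    (fun c => ∑ v, Real.negMulLog (cellAvg P₁ q (pv P₂ Ψ v) c))
  rw [Measure.restrict_univ] at h4
  rw [h4, e1, e2]
  -- the sum over pairs
  have s1' : Summable (fun p : Q × κ => Real.negMulLog
      ((P₁.prod P₂).real {x | (Ψ x, q x.1) = (p.2, p.1)})) :=
    (Equiv.prodComm Q κ).summable_iff.2 s1
  have e3 : ∑' p : κ × Q, Real.negMulLog ((P₁.prod P₂).real {x | (Ψ x, q x.1) = p}) =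
      ∑' c : Q, ∑ v : κ, Real.negMulLog
        ((P₁.prod P₂).real {x | (Ψ x, q x.1) = (v, c)}) := by
    rw [← (Equiv.prodComm Q κ).tsum_eq]
    have := s1'.tsum_prod' (fun c => (hasSum_fintype _).summable)
    simp only [tsum_fintype] at this
    exact this
  rw [e3]
  have s3 : Summable (fun c : Q => ∑ v : κ, Real.negMulLog
        ((P₁.prod P₂).real {x | (Ψ x, q x.1) = (v, c)})) := by
    have := s1'.prod
    simpa only [tsum_fintype] using this
  rw [← s3.tsum_sub s2]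
  refine tsum_congr fun c => ?_
  have hu : {y | y ∈ univ ∧ q y = c} = {y | q y = c} := by simp
  rw [hu]
  -- total mass of the cell
  have htot : ∑ v, (P₁.prod P₂).real {x | (Ψ x, q x.1) = (v, c)} = P₁.real {y | q y = c} := by
    have h5 : P₁.real {y | q y = c} = (P₁.prod P₂).real (Prod.fst ⁻¹' {y | q y = c}) := by
      rw [Measure.real, Measure.real, (measurePreserving_fst (μ := P₁) (ν := P₂)).measure_preimage
        (hq.meas c).nullMeasurableSet]
    rw [h5]
    have h6 : Prod.fst ⁻¹' {y | q y = c} =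
        ⋃ v ∈ (Finset.univ : Finset κ), {x : Ω₁ × Ω₂ | (Ψ x, q x.1) = (v, c)} := by
      ext x
      simp [Prod.ext_iff]
    rw [h6, measureReal_biUnion_finset]
    · intro v _ w _ hvw
      rw [Function.onFun, Set.disjoint_left]
      intro x hx hx'
      apply hvw
      have e : (v, c) = (w, c) := by rw [← hx, ← hx']
      exact (Prod.ext_iff.1 e).1
    · intro v _
      exact h3.meas (v, c)
  by_cases h0 : P₁.real {y | q y = c} = 0
  · rw [h0, mul_zero, Real.negMulLog_zero, sub_zero]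
    refine Finset.sum_eq_zero fun v _ => ?_
    rw [h0] at htot
    have := (Finset.sum_eq_zero_iff_of_nonneg (fun v _ => measureReal_nonneg)).1 htot v
      (Finset.mem_univ v)
    rw [this, Real.negMulLog_zero]
  · have h7 : ∀ v, Real.negMulLog ((P₁.prod P₂).real {x | (Ψ x, q x.1) = (v, c)}) =
        P₁.real {y | q y = c} * Real.negMulLog (cellAvg P₁ q (pv P₂ Ψ v) c) +
        (P₁.prod P₂).real {x | (Ψ x, q x.1) = (v, c)} / P₁.real {y | q y = c} *
          Real.negMulLog (P₁.real {y | q y = c}) := by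
      intro v
      have h8 : (P₁.prod P₂).real {x | (Ψ x, q x.1) = (v, c)} =
          cellAvg P₁ q (pv P₂ Ψ v) c * P₁.real {y | q y = c} := by
        unfold cellAvg
        rw [int_pv hΨ v hq.meas c]
        field_simp
      rw [h8, Real.negMulLog_mul]
      field_simp
    rw [Finset.sum_congr rfl (fun v _ => h7 v), Finset.sum_add_distrib, ← Finset.mul_sum,
      ← Finset.sum_mul, ← Finset.sum_div, htot, div_self h0]
    ring

end lim

theorem lim_cond {Ω₁ Ω₂ κ : Type*} [MeasurableSpace Ω₁] [MeasurableSpace Ω₂] {P₁ : Measure Ω₁}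
    {P₂ : Measure Ω₂} [IsProbabilityMeasure P₁] [IsProbabilityMeasure P₂] [Finite κ]
    (Ψ : Ω₁ × Ω₂ → κ) (hΨ : ∀ v, MeasurableSet {p | Ψ p = v})
    {Q : ℕ → Type*} (q : ∀ m, Ω₁ → Q m) (hq : ∀ m, IsLab P₁ (q m))
    (hmono : ∀ m, Finer (q (m + 1)) (q m))
    (hmeas : ∀ v, ∃ f : Ω₁ → ℝ, Measurable[⨆ m, MeasurableSpace.comap (q m) ⊤] f ∧
      (fun b => P₂.real {c | Ψ (b, c) = v}) =ᵐ[P₁] f) :
    Tendsto (fun m => ent (P₁.prod P₂) (fun p => (Ψ p, q m p.1)) - ent P₁ (q m)) atTop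
      (𝓝 (∫ b, ent P₂ (fun c => Ψ (b, c)) ∂P₁)) := by
  have : Fintype κ := Fintype.ofFinite κ
  -- the filtration
  let ℱ : Filtration ℕ (inferInstance : MeasurableSpace Ω₁) :=
    { seq := fun m => MeasurableSpace.comap (q m) ⊤
      mono' := by
        refine monotone_nat_of_le_succ fun m => ?_
        rintro s ⟨S, _, rfl⟩
        refine ⟨q (m + 1) '' (q m ⁻¹' S), trivial, ?_⟩
        ext x
        simp only [mem_preimage, mem_image]
        constructor
        · rintro ⟨y, hy, hyx⟩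
          rw [← hmono m y x hyx]
          exact hy
        · intro hx
          exact ⟨x, hx, rfl⟩
      le' := fun m => comap_le' (hq m).meas (hq m).cnt }
  simp_rw [fun m => ent_diff (P₁ := P₁) (P₂ := P₂) hΨ (hq m)]
  -- convergence of the conditional expectations
  have hconv : ∀ v, ∀ᵐ b ∂P₁, Tendsto (fun m => cellAvg P₁ (q m) (pv P₂ Ψ v) (q m b)) atTop
      (𝓝 (pv P₂ Ψ v b)) := by
    intro v
    have h1 := tendsto_ae_condExp (μ := P₁) (ℱ := ℱ) (pv P₂ Ψ v)
    obtain ⟨f, hf, hfe⟩ := hmeas v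
    have hle : (⨆ n, ℱ n) ≤ (inferInstance : MeasurableSpace Ω₁) := iSup_le fun n => ℱ.le n
    have h2 : P₁[pv P₂ Ψ v | ⨆ n, ℱ n] =ᵐ[P₁] pv P₂ Ψ v := by
      have hfe' : pv P₂ Ψ v =ᵐ[P₁] f := hfe
      refine (condExp_congr_ae hfe').trans ?_
      rw [condExp_of_stronglyMeasurable hle hf.stronglyMeasurable
        ((pv_int hΨ v).congr hfe')]
      exact hfe'.symm
    have h3 : ∀ᵐ b ∂P₁, ∀ m, (P₁[pv P₂ Ψ v | ℱ m]) b = cellAvg P₁ (q m) (pv P₂ Ψ v) (q m b) := by
      rw [ae_all_iff]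
      intro m
      exact condExp_cell (hq m).meas (hq m).cnt (pv_int hΨ v)
    filter_upwards [h1, h2, h3] with b hb1 hb2 hb3
    rw [hb2] at hb1
    exact hb1.congr hb3
  -- bounds
  have hav : ∀ m v b, 0 ≤ cellAvg P₁ (q m) (pv P₂ Ψ v) (q m b) ∧
      cellAvg P₁ (q m) (pv P₂ Ψ v) (q m b) ≤ 1 := by
    intro m v b
    unfold cellAvg
    constructor
    · exact div_nonneg (integral_nonneg fun x => pv_nonneg Ψ v x) measureReal_nonneg
    · refine div_le_one_of_le₀ ?_ measureReal_nonneg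
      have h1 : ∫ x in {x | q m x = q m b}, pv P₂ Ψ v x ∂P₁ ≤
          ∫ x in {x | q m x = q m b}, (1 : ℝ) ∂P₁ := by
        refine integral_mono (pv_int hΨ v).integrableOn (integrable_const 1) ?_
        intro x
        exact pv_le_one Ψ v x
      refine h1.trans (le_of_eq ?_)
      simp
  have hlim : ∫ b, ent P₂ (fun c => Ψ (b, c)) ∂P₁ =
      ∫ b, ∑ v, Real.negMulLog (pv P₂ Ψ v b) ∂P₁ := by
    refine integral_congr_ae (Eventually.of_forall fun b => ?_)
    have hmb : ∀ v, MeasurableSet {c | Ψ (b, c) = v} := fun v => measurable_prodMk_left (hΨ v)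
    have := (lab_shannon (μ := P₂) (a := fun c => Ψ (b, c)) hmb (Set.toFinite _).countable).2
    simp only
    rw [this, tsum_fintype]
    rfl
  rw [hlim]
  refine tendsto_integral_of_dominated_convergence (fun _ => (Fintype.card κ : ℝ)) ?_
    (integrable_const _) ?_ ?_
  · intro m
    refine Measurable.aestronglyMeasurable ?_
    exact meas_comp (hq m).meas (hq m).cnt
      (fun c => ∑ v, Real.negMulLog (cellAvg P₁ (q m) (pv P₂ Ψ v) c))
  · intro m
    refine Eventually.of_forall fun b => ?_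
    have h0 : 0 ≤ ∑ v, Real.negMulLog (cellAvg P₁ (q m) (pv P₂ Ψ v) (q m b)) :=
      Finset.sum_nonneg fun v _ => Real.negMulLog_nonneg (hav m v b).1 (hav m v b).2
    rw [Real.norm_eq_abs, abs_of_nonneg h0]
    have h1 : ∑ v, Real.negMulLog (cellAvg P₁ (q m) (pv P₂ Ψ v) (q m b)) ≤ ∑ _v : κ, (1 : ℝ) := by
      refine Finset.sum_le_sum fun v _ => ?_
      have := Real.negMulLog_le_one_sub_self (hav m v b).1
      linarith [(hav m v b).1]
    simpa using h1
  · have hall : ∀ᵐ b ∂P₁, ∀ v, Tendsto (fun m => cellAvg P₁ (q m) (pv P₂ Ψ v) (q m b)) atTop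
      (𝓝 (pv P₂ Ψ v b)) := by
      rw [ae_all_iff]
      exact hconv
    filter_upwards [hall] with b hb
    refine tendsto_finsetSum _ fun v _ => ?_
    exact (Real.continuous_negMulLog.tendsto _).comp (hb v)

end Pool.Agent.TH209.AF
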