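import Pool.Agent.TH722.AF.Defs
import Pool.Agent.TH480.FI.FI_LAB

/-!
Job AF-PROD: entropy and Bowen functional of independent labels on a product.
-/

set_option autoImplicit false

namespace Pool.Agent.TH209.AF

open MeasureTheory Set Filter Pool.Agent.TH722.FI Pool.Agent.TH722.AF Pool.Agent.TH480.FI
open scoped Topology ENNReal

/-- entropy depends on the partition only -/
lemma ent_congr {X α β : Type*} [MeasurableSpace X] {μ : Measure X} {a : X → α} {b : X → β}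
    (h : ∀ x y, a x = a y ↔ b x = b y) : ent μ a = ent μ b := by
  have : info μ a = info μ b := by
    ext x
    unfold info mass
    have : {y | a y = a x} = {y | b y = b x} := by
      ext y
      exact h y x
    rw [this]
  unfold ent
  rw [this]

section prod

variable {Ω₁ Ω₂ κ₁ κ₂ : Type*} [MeasurableSpace Ω₁] [MeasurableSpace Ω₂]
    {P₁ : Measure Ω₁} {P₂ : Measure Ω₂} [IsProbabilityMeasure P₁] [IsProbabilityMeasure P₂]

theorem ent_prod (a : Ω₁ → κ₁) (b : Ω₂ → κ₂) (ha : IsLab P₁ a) (hb : IsLab P₂ b) :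
    IsLab (P₁.prod P₂) (fun p => (a p.1, b p.2)) ∧
    ent (P₁.prod P₂) (fun p => (a p.1, b p.2)) = ent P₁ a + ent P₂ b := by
  have h1 := lab_comp (ν := P₁.prod P₂) (T := Prod.fst) measurePreserving_fst ha
  have h2 := lab_comp (ν := P₁.prod P₂) (T := Prod.snd) measurePreserving_snd hb
  have h3 := (lab_pair h1.1 h2.1).1
  refine ⟨h3, ?_⟩
  rw [← h1.2, ← h2.2]
  unfold ent
  rw [← integral_add h1.1.int h2.1.int]
  refine integral_congr_ae ?_
  filter_upwards [ae_mass_pos h1.1.meas h1.1.cnt, ae_mass_pos h2.1.meas h2.1.cnt] with p hp1 hp2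
  have e : mass (P₁.prod P₂) (fun p => (a p.1, b p.2)) p =
      mass (P₁.prod P₂) (fun p => a p.1) p * mass (P₁.prod P₂) (fun p => b p.2) p := by
    unfold mass
    have e1 : {q : Ω₁ × Ω₂ | (a q.1, b q.2) = (a p.1, b p.2)} =
        {x | a x = a p.1} ×ˢ {y | b y = b p.2} := by
      ext q
      simp [Prod.ext_iff]
    have e2 : {q : Ω₁ × Ω₂ | a q.1 = a p.1} = {x | a x = a p.1} ×ˢ univ := by
      ext q
      simp
    have e3 : {q : Ω₁ × Ω₂ | b q.2 = b p.2} = univ ×ˢ {x | b x = b p.2} := by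
      ext q
      simp
    rw [e1, e2, e3, measureReal_prod_prod, measureReal_prod_prod, measureReal_prod_prod]
    simp
  unfold info
  rw [e, Real.log_mul hp1.ne' hp2.ne']
  ring

theorem bf_prod {r : ℕ}
    (T₁ : FreeGroup (Fin r) → Ω₁ → Ω₁) (T₂ : FreeGroup (Fin r) → Ω₂ → Ω₂)
    (h₁ : PmpAct P₁ T₁) (h₂ : PmpAct P₂ T₂) (a : Ω₁ → κ₁) (b : Ω₂ → κ₂)
    (ha : IsLab P₁ a) (hb : IsLab P₂ b) :
    PmpAct (P₁.prod P₂) (fun g p => (T₁ g p.1, T₂ g p.2)) ∧
    IsLab (P₁.prod P₂) (fun p => (a p.1, b p.2)) ∧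
    ent (P₁.prod P₂) (fun p => (a p.1, b p.2)) = ent P₁ a + ent P₂ b ∧
    BF (P₁.prod P₂) (fun g p => (T₁ g p.1, T₂ g p.2)) (fun p => (a p.1, b p.2)) =
      BF P₁ T₁ a + BF P₂ T₂ b := by
  obtain ⟨h3, h4⟩ := ent_prod (P₁ := P₁) (P₂ := P₂) a b ha hb
  refine ⟨⟨?_, ?_, ?_⟩, h3, h4, ?_⟩
  · intro p
    simp [h₁.one, h₂.one]
  · intro g h p
    simp [h₁.mul, h₂.mul]
  · intro g
    exact (h₁.mp g).prod (h₂.mp g)
  · unfold BF
    rw [h4]
    have key : ∀ i : Fin r, ent (P₁.prod P₂) (fun x => ((a x.1, b x.2),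
        (a (T₁ (FreeGroup.of i)⁻¹ x.1), b (T₂ (FreeGroup.of i)⁻¹ x.2)))) =
        ent P₁ (fun x => (a x, a (T₁ (FreeGroup.of i)⁻¹ x))) +
        ent P₂ (fun x => (b x, b (T₂ (FreeGroup.of i)⁻¹ x))) := by
      intro i
      have ha' := (lab_pair ha (lab_comp (h₁.mp (FreeGroup.of i)⁻¹) ha).1).1
      have hb' := (lab_pair hb (lab_comp (h₂.mp (FreeGroup.of i)⁻¹) hb).1).1
      rw [← (ent_prod (P₁ := P₁) (P₂ := P₂) _ _ ha' hb').2]
      refine ent_congr ?_
      intro x y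
      simp only [Prod.mk.injEq]
      tauto
    rw [Finset.sum_congr rfl (fun i _ => key i), Finset.sum_add_distrib]
    ring

end prod

end Pool.Agent.TH209.AF
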